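import Pool.Agent.AT8.Stmts4
import Pool.Agent.Helper43_AT3.QT2
import Pool.Agent.Helper97_K9.ORB
import Pool.Agent.Helper69_K9.Fmg

/-!
# Squad AT8, row QT3: the inertial group of the blocks of `N(Q)/Q` (see `Helper43_AT3/QT2.lean`)
-/

open scoped BigOperators

noncomputable section

namespace Pool.Agent.PP.T8.H86

open Pool.Agent.Helper51_AWC Pool.Agent.Helper79_WRA Pool.Agent.PP Pool.Agent.PP.KF
open Pool.Agent.PP.K9 Pool.Agent.PP.K9.H97 Pool.Agent.PP.H75 Pool.Agent.PP.T3
open Pool.Agent.PP.T3.H43 hiding push_add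

attribute [local instance] Ideal.Quotient.field

set_option linter.unusedSectionVars false

/-- row QT3 -/
theorem qt3 (psg : T3.PsgStmt) : Qt3Stmt := by
  intro ℓ _ M _ hM G _ _ e V γ hLd Q hQV A _ _ p hp hker f hf hff hTp
  classical
  have hF : GoodF ℓ (FF M) := H50.fld ℓ Fact.out M hM
  obtain ⟨C, hC⟩ : ∃ C : Subgroup G, C = Subgroup.centralizer (V : Set G) := ⟨_, rfl⟩
  have hVC : V ≤ C := by
    rw [hC]
    intro v hv
    rw [Subgroup.mem_centralizer_iff]
    intro w hw
    exact hLd.ab w hw v hv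
  have hCQ : C ≤ Subgroup.centralizer (Q : Set G) := by
    rw [hC]
    exact Subgroup.centralizer_le hQV
  have hQN : Subgroup.centralizer (Q : Set G) ≤ Subgroup.normalizer (Q : Set G) :=
    Subgroup.centralizer_le_normalizer _
  have hCN : C ≤ Subgroup.normalizer (Q : Set G) := hCQ.trans hQN
  have hVN : V ≤ Subgroup.normalizer (Q : Set G) := hVC.trans hCN
  have hVp : IsPGroup ℓ V := hLd.tp.pg
  have hQp : IsPGroup ℓ Q := hVp.to_le hQV
  have he : IsIdem e := hLd.blk.1
  have hmk : ∀ x : Subgroup.normalizer (Q : Set G), p x = 1 ↔ (x : G) ∈ Q := by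
    intro x
    rw [← MonoidHom.mem_ker, hker, Subgroup.mem_subgroupOf]
  -- the homomorphism on the centraliser
  obtain ⟨q, hq⟩ : ∃ q : C →* A, q = p.comp (Subgroup.inclusion hCN) := ⟨_, rfl⟩
  have hqk : ∀ c : C, c ∈ q.ker → (c : G) ∈ Q := by
    intro c hc
    rw [MonoidHom.mem_ker, hq] at hc
    exact (hmk _).1 hc
  have hqc : q.ker ≤ Subgroup.center C := by
    intro c hc
    rw [Subgroup.mem_center_iff]
    intro d
    apply Subtype.ext
    change (d : G) * c = c * d
    have h1 := hC.le d.2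
    rw [Subgroup.mem_centralizer_iff] at h1
    exact (h1 c (hQV (hqk c hc))).symm
  have hqp : IsPGroup ℓ q.ker := by
    refine hQp.of_injective ((Subgroup.subtype C).comp q.ker.subtype |>.codRestrict Q ?_) ?_
    · intro x
      exact hqk x.1 x.2
    · intro a b hab
      apply Subtype.ext
      apply Subtype.ext
      exact congrArg (fun t : Q => (t : G)) hab
  -- the defect group of the quotient
  obtain ⟨V', hV'⟩ : ∃ V' : Subgroup A,
    V' = (V.subgroupOf (Subgroup.normalizer (Q : Set G))).map p := ⟨_, rfl⟩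
  rw [← hV'] at hTp ⊢
  obtain ⟨K, hK⟩ : ∃ K : Subgroup A, K = Subgroup.centralizer (V' : Set A) := ⟨_, rfl⟩
  have hV'p : IsPGroup ℓ V' := hTp.pg
  have hmV : ∀ x : Subgroup.normalizer (Q : Set G), (x : G) ∈ V ↔ p x ∈ V' := by
    intro x
    rw [hV', Subgroup.mem_map]
    constructor
    · intro h
      exact ⟨x, Subgroup.mem_subgroupOf.2 h, rfl⟩
    · rintro ⟨w, hw, hwx⟩
      have h1 : p (x * w⁻¹) = 1 := by rw [map_mul, map_inv, hwx, mul_inv_cancel]
      have h2 := hQV ((hmk _).1 h1)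
      have h3 := V.mul_mem h2 (Subgroup.mem_subgroupOf.1 hw)
      change (x : G) * (w : G)⁻¹ * (w : G) ∈ V at h3
      rwa [inv_mul_cancel_right] at h3
  have hnV : ∀ x : Subgroup.normalizer (Q : Set G),
      p x ∈ Subgroup.normalizer (V' : Set A) → (x : G) ∈ Subgroup.normalizer (V : Set G) := by
    intro x hx
    rw [Subgroup.mem_normalizer_iff]
    intro v
    have key : ∀ w : Subgroup.normalizer (Q : Set G), (w : G) ∈ V ↔ (x : G) * w * (x : G)⁻¹ ∈ V := by
      intro w
      rw [hmV w, Subgroup.mem_normalizer_iff.1 hx (p w)]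
      have h1 := hmV (x * w * x⁻¹)
      rw [map_mul, map_mul, map_inv] at h1
      exact h1.symm
    constructor
    · intro hv
      exact (key ⟨v, hVN hv⟩).1 hv
    · intro hv
      have h1 : v ∈ Subgroup.normalizer (Q : Set G) := by
        have h2 := mul_mem (mul_mem (inv_mem x.2) (hVN hv)) x.2
        have h3 : (x : G)⁻¹ * (x * v * (x : G)⁻¹) * x = v := by group
        rwa [h3] at h2
      exact (key ⟨v, h1⟩).2 hv
  have hcC : ∀ g ∈ Subgroup.normalizer (V : Set G), ∀ c ∈ C, g * c * g⁻¹ ∈ C := by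
    intro g hg c hc
    rw [hC, Subgroup.mem_centralizer_iff] at hc ⊢
    intro v hv
    have h1 : g⁻¹ * v * g ∈ V := by
      have h2 := (Subgroup.mem_normalizer_iff.1 (inv_mem hg) v).1 hv
      rwa [inv_inv] at h2
    have h2 := hc _ h1
    calc v * (g * c * g⁻¹) = g * ((g⁻¹ * v * g) * c) * g⁻¹ := by group
      _ = g * (c * (g⁻¹ * v * g)) * g⁻¹ := by rw [h2]
      _ = (g * c * g⁻¹) * v := by group
  have hnC : Subgroup.normalizer (V : Set G) ≤ Subgroup.normalizer (C : Set G) := by
    intro g hg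
    rw [Subgroup.mem_normalizer_iff]
    intro c
    refine ⟨fun h => hcC g hg c h, fun h => ?_⟩
    have h1 := hcC g⁻¹ (inv_mem hg) _ h
    have h2 : g⁻¹ * (g * c * g⁻¹) * g⁻¹⁻¹ = c := by group
    rwa [h2] at h1
  have hcK : ∀ g ∈ Subgroup.normalizer (V' : Set A), ∀ c ∈ K, g * c * g⁻¹ ∈ K := by
    intro g hg c hc
    rw [hK, Subgroup.mem_centralizer_iff] at hc ⊢
    intro v hv
    have h1 : g⁻¹ * v * g ∈ V' := by
      have h2 := (Subgroup.mem_normalizer_iff.1 (inv_mem hg) v).1 hv
      rwa [inv_inv] at h2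
    have h2 := hc _ h1
    calc v * (g * c * g⁻¹) = g * ((g⁻¹ * v * g) * c) * g⁻¹ := by group
      _ = g * (c * (g⁻¹ * v * g)) * g⁻¹ := by rw [h2]
      _ = (g * c * g⁻¹) * v := by group
  have hKn : K ≤ Subgroup.normalizer (V' : Set A) := by
    rw [hK]
    exact Subgroup.centralizer_le_normalizer _
  have hrK : q.range ≤ K := by
    rintro _ ⟨c, rfl⟩
    rw [hK, Subgroup.mem_centralizer_iff]
    intro v hv
    rw [hV'] at hv
    obtain ⟨w, hw, rfl⟩ := hv
    rw [hq]
    change p w * p (Subgroup.inclusion hCN c) = p (Subgroup.inclusion hCN c) * p w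
    rw [← map_mul, ← map_mul]
    congr 1
    apply Subtype.ext
    have h1 := hC.le c.2
    rw [Subgroup.mem_centralizer_iff] at h1
    exact h1 w (Subgroup.mem_subgroupOf.1 hw)
  have hKr : K ≤ Subgroup.normalizer (q.range : Set A) := by
    have key : ∀ g ∈ K, ∀ y ∈ q.range, g * y * g⁻¹ ∈ q.range := by
      rintro g hg _ ⟨c, rfl⟩
      obtain ⟨m, rfl⟩ := hp g
      have hm := hnV m (hKn hg)
      refine ⟨⟨(m : G) * c * (m : G)⁻¹, hcC m hm c c.2⟩, ?_⟩
      rw [hq]
      change p (Subgroup.inclusion hCN _) = p m * p (Subgroup.inclusion hCN c) * (p m)⁻¹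
      rw [← map_inv, ← map_mul, ← map_mul]
      rfl
    intro g hg
    rw [Subgroup.mem_normalizer_iff]
    intro y
    refine ⟨fun h => key g hg y h, fun h => ?_⟩
    have h1 := key g⁻¹ (inv_mem hg) _ h
    have h2 : g⁻¹ * (g * y * g⁻¹) * g⁻¹⁻¹ = y := by group
    rwa [h2] at h1
  -- the idempotents
  obtain ⟨f', hf'⟩ : ∃ f' : A → FF M,
    f' = push p (fun t : Subgroup.normalizer (Q : Set G) => br Q e t) := ⟨_, rfl⟩
  have hbrQ : IsIdem (fun t : Subgroup.normalizer (Q : Set G) => br Q e t) :=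
    (H20.brm ℓ (FF M) hF G Q _ hQp hQN le_rfl).2.2 e he
  have hf'I : IsIdem f' := by
    rw [hf']
    exact push_isIdem hp hbrQ
  rw [← hf'] at hff
  have hbrm := H20.brm ℓ (FF M) hF A V' K hV'p hK.ge (by rw [hK]; exact hK ▸ hKn)
  have hbrf : IsIdem (fun t : K => br V' f t) := hbrm.2.2 f hf.1
  have hbrf' : IsIdem (fun t : K => br V' f' t) := hbrm.2.2 f' hf'I
  have hbs : ∀ a : A → FF M, ∀ x, x ∉ K → br V' a x = 0 := by
    intro a x hx
    rw [hK] at hx
    exact br_out a hx
  have hIf' : Ix K (br V' f') := ⟨hbs f', hbrf'⟩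
  have hVNp : IsPGroup ℓ (V.subgroupOf (Subgroup.normalizer (Q : Set G))) :=
    hVp.comap_of_injective (Subgroup.normalizer (Q : Set G)).subtype Subtype.val_injective
  have hbr : br V' f' = push q (fun t : C => e t) := by
    funext y
    by_cases hy : y ∈ K
    · have hy' : y ∈ Subgroup.centralizer
          (((V.subgroupOf (Subgroup.normalizer (Q : Set G))).map p : Subgroup A) : Set A) := by
        rw [← hV', ← hK]
        exact hy
      rw [br_in _ (by rw [← hK]; exact hy), hf',
        K9.H02.push_br hF hVNp hbrQ.1 hy']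
      have h1 : br (V.subgroupOf (Subgroup.normalizer (Q : Set G)))
          (fun t : Subgroup.normalizer (Q : Set G) => br Q e t) =
          fun t : Subgroup.normalizer (Q : Set G) => br V e t := by
        funext t
        have h2 : t ∈ Subgroup.centralizer
            ((V.subgroupOf (Subgroup.normalizer (Q : Set G)) : Subgroup _) : Set _) ↔
            (t : G) ∈ Subgroup.centralizer (V : Set G) := by
          rw [Subgroup.mem_centralizer_iff, Subgroup.mem_centralizer_iff]
          constructor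
          · intro h v hv
            exact congrArg Subtype.val (h ⟨v, hVN hv⟩ (Subgroup.mem_subgroupOf.2 hv))
          · intro h v hv
            exact Subtype.ext (h v (Subgroup.mem_subgroupOf.1 hv))
        by_cases ht : (t : G) ∈ Subgroup.centralizer (V : Set G)
        · rw [br_in _ (h2.2 ht), br_in _ ht, br_in _ (hCQ (by rw [hC]; exact ht))]
        · rw [br_out _ (fun h => ht (h2.1 h)), br_out _ ht]
      rw [h1, push_res hCN p (a := br V e) (by
        intro x hx
        rw [hC] at hx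
        exact br_out e hx), ← hq]
      congr 1
      funext t
      apply br_in
      rw [← hC]
      exact t.2
    · rw [hbs f' y hy]
      symm
      have := Fintype.ofFinite C
      rw [push_eq]
      refine Finset.sum_eq_zero fun x _ => ?_
      rw [if_neg]
      rintro rfl
      exact hy (hrK ⟨x, rfl⟩)
  -- the block of the centraliser
  have hne : (fun t : K => br V' f t) ≠ 0 := by
    obtain ⟨g, hg, hg0⟩ := hTp.gd
    intro h
    rw [← hK] at hg
    have h1 := congrFun h ⟨g, hg⟩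
    change br V' f g = 0 at h1
    rw [hK] at hg
    rw [br_in _ hg] at h1
    exact hg0 h1
  obtain ⟨g0, hg0, hg01, -⟩ := K9.H24.exists_blk (fun a : K → FF M => a) rfl
    (fun a b => rfl) hbrf hne
  obtain ⟨γ', hγ'⟩ : ∃ γ' : A → FF M, γ' = H75.ext0 K g0 := ⟨_, rfl⟩
  have hγs : ∀ x, x ∉ K → γ' x = 0 := by
    rw [hγ']
    exact H75.ext0_supp K g0
  have hγK : (fun t : K => γ' t) = g0 := by
    rw [hγ']
    exact funext (H75.ext0_apply K g0)
  have hBγ : Bx K γ' := ⟨hγs, by rw [hγK]; exact hg0⟩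
  have hund : mulF (br V' f) γ' = γ' := by
    apply H75.eq_of_res (H75.mulF_supp K (hbs f) hγs) hγs
    rw [H75.mulF_res K γ' (hbs f), hγK, hg01]
  have hund' : mulF (br V' f') γ' = γ' := by
    conv_lhs => rw [← hund]
    rw [← H20.mulF_assoc, ← hbrm.1 f' f hf'I.1 hf.1.1, hff, hund]
  have hund2 : mulF γ' (push q (fun t : C => e t)) = γ' := by
    rw [← hbr, mulF_comm_of (K := K) hγs (fun k hk => hIf'.inv hk), hund']
  -- the block of the centraliser of `V`
  have heC : IsIdem (fun t : C => e t) := by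
    have h1 := (H20.brm ℓ (FF M) hF G V C hVp hC.ge (by
      rw [hC]
      exact Subgroup.centralizer_le_normalizer _)).2.2 e he
    have h2 : (fun t : C => br V e t) = fun t : C => e t := by
      funext t
      apply br_in
      rw [← hC]
      exact t.2
    rwa [h2] at h1
  obtain ⟨d0, hd0, hd01, hd02⟩ := K9.H24.exists_blk (fun a : C → FF M => mulF γ' (push q a))
    (by
      change mulF γ' (push q 0) = 0
      rw [push_zero]
      exact H46.mulF_zero _)
    (fun a b => by
      change mulF γ' (push q (a + b)) = mulF γ' (push q a) + mulF γ' (push q b)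
      rw [push_add]
      exact H46.mulF_add _ _ _) heC (by
      change mulF γ' (push q (fun t : C => e t)) ≠ 0
      rw [hund2]
      exact hBγ.ne)
  change mulF γ' (push q d0) ≠ 0 at hd02
  obtain ⟨δ, hδ⟩ : ∃ δ : G → FF M, δ = H75.ext0 C d0 := ⟨_, rfl⟩
  have hδs : ∀ x, x ∉ C → δ x = 0 := by
    rw [hδ]
    exact H75.ext0_supp C d0
  have hδC : (fun t : C => δ t) = d0 := by
    rw [hδ]
    exact funext (H75.ext0_apply C d0)
  have hBδ : Bx C δ := ⟨hδs, by rw [hδC]; exact hd0⟩
  have hbsV : ∀ x, x ∉ C → br V e x = 0 := by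
    intro x hx
    rw [hC] at hx
    exact br_out e hx
  have hLδ : Ld ℓ e V δ := by
    refine ⟨hLd.blk, hLd.tp, hLd.ab, hC ▸ hBδ, ?_⟩
    apply H75.eq_of_res (H75.mulF_supp C hbsV hδs) hδs
    rw [H75.mulF_res C δ hbsV, hδC]
    have h2 : (fun t : C => br V e t) = fun t : C => e t := by
      funext t
      apply br_in
      rw [← hC]
      exact t.2
    rw [h2, hd01]
  obtain ⟨-, ⟨hbN, -⟩, -⟩ := K9.H69.fmg ℓ M hM G e hLd.blk V hLd.tp
  have hXN : Subgroup.centralizer (V : Set G) ≤ Subgroup.normalizer (V : Set G) :=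
    Subgroup.centralizer_le_normalizer _
  obtain ⟨n₀, hn₀, hγδ⟩ := orb_main hXN (hC ▸ hnC) (f := br V e)
    ⟨fun x hx => H66.br_of_not_mem fun h2 => hx (hXN h2), hbN⟩ hLd.gam hLδ.gam hLd.und hLδ.und
  -- images of blocks
  have hPq : ∀ a : G → FF M, Bx C a →
      push p (fun t : Subgroup.normalizer (Q : Set G) => a t) = push q (fun t : C => a t) := by
    intro a ha
    rw [push_res hCN p ha.supp, ← hq]
  have hPB : ∀ a : G → FF M, Bx C a →
      Bx q.range (push p (fun t : Subgroup.normalizer (Q : Set G) => a t)) := by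
    intro a ha
    rw [hPq a ha]
    exact push_blk psg hF q hqc hqp ha.blk
  have hPinj : ∀ a b : G → FF M, Bx C a → Bx C b →
      push p (fun t : Subgroup.normalizer (Q : Set G) => a t) =
        push p (fun t : Subgroup.normalizer (Q : Set G) => b t) → a = b := by
    intro a b ha hb hab
    rcases ha.dich hb with h | h
    · exact h
    · exfalso
      have h1 : push p (fun t : Subgroup.normalizer (Q : Set G) => mulF a b t) = 0 := by
        rw [h]
        exact push_zero p
      rw [H75.mulF_res _ b (fun x hx => ha.supp x (fun h' => hx (hCN h'))), push_mulF, ← hab,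
        (hPB a ha).mul] at h1
      exact (hPB a ha).ne h1
  have hPcj : ∀ (n : Subgroup.normalizer (Q : Set G)) (a : G → FF M),
      push p (fun t : Subgroup.normalizer (Q : Set G) => cj (n : G) a t) =
        cj (p n) (push p (fun t : Subgroup.normalizer (Q : Set G) => a t)) := by
    intro n a
    rw [← push_cj]
    rfl
  have hne2 : mulF γ' (push p (fun t : Subgroup.normalizer (Q : Set G) => δ t)) ≠ 0 := by
    rw [hPq δ hBδ, hδC]
    exact hd02
  refine ⟨γ', ⟨hf, hTp, ?_, hK ▸ hBγ, hund⟩, ?_⟩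
  · intro a ha b hb
    rw [hV'] at ha hb
    obtain ⟨x, hx, rfl⟩ := ha
    obtain ⟨y, hy, rfl⟩ := hb
    rw [← map_mul, ← map_mul]
    congr 1
    exact Subtype.ext (hLd.ab _ (Subgroup.mem_subgroupOf.1 hx) _ (Subgroup.mem_subgroupOf.1 hy))
  · refine ⟨n₀, hn₀, ?_⟩
    intro t ht
    obtain ⟨ht1, ht2⟩ := Subgroup.mem_inf.1 ht
    obtain ⟨n, rfl⟩ := hp t
    have hn := hnV n ht1
    have hB1 : Bx C (cj (n : G) δ) := hBδ.cj (hnC hn)
    have hcγ : cj (p n) γ' = γ' := (cj_eq_iff _ _).2 ht2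
    have hne3 : mulF γ' (push p (fun t : Subgroup.normalizer (Q : Set G) =>
        cj (n : G) δ t)) ≠ 0 := by
      intro h
      apply hne2
      rw [hPcj] at h
      conv_lhs at h => rw [← hcγ]
      rw [← cj_mulF] at h
      have h3 := congrArg (cj (p n)⁻¹) h
      rw [cj_inv_cj, cj_zero] at h3
      exact h3
    obtain ⟨k, hk, hk1⟩ := cover_conj hrK hKr hBγ (hPB δ hBδ) (hPB _ hB1) hne2 hne3
    obtain ⟨m, rfl⟩ := hp k
    have hm := hnV m (hKn hk)
    rw [← hPcj] at hk1
    have h4 := hPinj _ _ hB1 (hBδ.cj (hnC hm)) hk1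
    -- the element `x = m⁻¹ n`
    have hx1 : (m : G)⁻¹ * (n : G) ∈ Subgroup.normalizer (V : Set G) := mul_mem (inv_mem hm) hn
    have hx2 : cj ((m : G)⁻¹ * (n : G)) δ = δ := by
      rw [← cj_cj, h4, cj_inv_cj]
    have h5 : (p (m⁻¹ * n))⁻¹ * p n ∈ K := by
      have h5 := hcK (p n)⁻¹ (inv_mem ht1) (p m) hk
      rw [inv_inv] at h5
      have h6 : (p (m⁻¹ * n))⁻¹ * p n = (p n)⁻¹ * p m * p n := by
        rw [map_mul, map_inv]
        group
      rw [h6]
      exact h5
    refine ⟨n₀⁻¹ * ((m : G)⁻¹ * (n : G)) * n₀, ?_, ?_⟩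
    · refine Subgroup.mem_inf.2 ⟨mul_mem (mul_mem (inv_mem hn₀) hx1) hn₀, ?_⟩
      apply (cj_eq_iff _ _).1
      rw [← cj_cj, ← hγδ, ← cj_cj, hx2, hγδ, cj_inv_cj]
    · intro v hv x y hx hy
      have hxV : (x : G) ∈ V := by
        rw [hx]
        exact (Subgroup.mem_normalizer_iff.1 hn₀ v).1 hv
      have hyx : y = (m⁻¹ * n) * x * (m⁻¹ * n)⁻¹ := by
        apply Subtype.ext
        change (y : G) = (m : G)⁻¹ * n * x * ((m : G)⁻¹ * n)⁻¹
        rw [hy, hx]
        group
      have hpx : p x ∈ V' := (hmV x).1 hxV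
      rw [hK, Subgroup.mem_centralizer_iff] at h5
      have h7 := h5 _ hpx
      have h8 : p n = p (m⁻¹ * n) * ((p (m⁻¹ * n))⁻¹ * p n) := by group
      rw [hyx, map_mul, map_mul, map_inv]
      have h9 : p n * p x * (p n)⁻¹ = p (m⁻¹ * n) *
          (((p (m⁻¹ * n))⁻¹ * p n) * p x) * ((p (m⁻¹ * n))⁻¹ * p n)⁻¹ * (p (m⁻¹ * n))⁻¹ := by
        group
      rw [h9, ← h7]
      group

end Pool.Agent.PP.T8.H86
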